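import Pool.Agent.W595.Bond.Gr

set_option autoImplicit false

namespace Pool.Agent.W557.Bond

open Pool.Agent.W595.Bond

/-- dominating sets of a graph -/
def domS (G : SimpleGraph (Fin 28)) : Set ℕ :=
  {n : ℕ | ∃ D : Finset (Fin 28), D.card = n ∧ ∀ v : Fin 28, v ∈ D ∨ ∃ u ∈ D, G.Adj u v}

lemma dom_nonempty (G : SimpleGraph (Fin 28)) : (domS G).Nonempty :=
  ⟨(Finset.univ : Finset (Fin 28)).card, Finset.univ, rfl, fun v => Or.inl (Finset.mem_univ v)⟩

lemma e0_sub : (↑E0 : Set (Sym2 (Fin 28))) ⊆ gr.edgeSet := by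
  have h : ∀ e ∈ E0, e ∈ gr.edgeSet := by decide +kernel
  intro e he
  exact h e (Finset.mem_coe.mp he)

lemma e0_card : E0.card ≤ 8 := by decide +kernel

theorem fin (h1 : Draw) (h2 : Dom5) (h3 : Dom7) (h4 : Surv) : Fin8537 := by
  have six_le : 6 ≤ sInf (domS gr) := by
    obtain ⟨D, hD, hdom⟩ := Nat.sInf_mem (dom_nonempty gr)
    by_contra hlt
    push Not at hlt
    obtain ⟨v, hv, hu⟩ := h2 D (by omega)
    rcases hdom v with h | ⟨u, hu', hadj⟩
    · exact hv h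
    · exact hu u hu' hadj
  have le_six : ∀ S : Finset (Sym2 (Fin 28)), S.card ≤ 6 →
      sInf (domS (gr.deleteEdges (↑S : Set (Sym2 (Fin 28))))) ≤ 6 := by
    intro S hS
    obtain ⟨D, hD, hdom⟩ := h4 S hS
    exact Nat.sInf_le ⟨D, hD, hdom⟩
  have gr_le : sInf (domS gr) ≤ 6 := by
    have h := le_six ∅ (by simp)
    simpa using h
  have seven_le : 7 ≤ sInf (domS (gr.deleteEdges (↑E0 : Set (Sym2 (Fin 28))))) := by
    obtain ⟨D, hD, hdom⟩ := Nat.sInf_mem
      (dom_nonempty (gr.deleteEdges (↑E0 : Set (Sym2 (Fin 28)))))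
    by_contra hlt
    push Not at hlt
    obtain ⟨v, hv, hu⟩ := h3 D (by omega)
    rcases hdom v with h | ⟨u, hu', hadj⟩
    · exact hv h
    · exact hu u hu' hadj
  refine ⟨Fin 28, inferInstance, gr, h1, ⟨E0, e0_sub, e0_card, ?_⟩, ?_⟩
  · change sInf (domS gr) < sInf (domS (gr.deleteEdges (↑E0 : Set (Sym2 (Fin 28)))))
    omega
  · intro E _ hE
    change ¬ (sInf (domS gr) < sInf (domS (gr.deleteEdges (↑E : Set (Sym2 (Fin 28))))))
    have := le_six E hE
    omega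

end Pool.Agent.W557.Bond
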